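import Pool.Agent.L7h81.Pm.Stm

set_option autoImplicit false

/-!
# Project PM (helper81): CONT
-/

namespace Pool.Agent.L7h26.Pm

open Real Filter Topology Set Pool.Agent.L7h81.Pz Pool.Agent.L7h81.Pm

theorem cont_ta {C S : ℝ} (hC : 0 < C) (hS : 0 < S) (h1 : C ^ 2 + S ^ 2 = 1) (l : ℕ → ℕ)
    (ε : ℕ → ℝ) (i : ℕ) :
    ContinuousOn (fun p : ℝ => ta hC hS h1 l ε p i) (Ioi (S ^ 2)) := by
  unfold ta tt
  have hy := (continuous_yy hC hS h1 (l i)).continuousOn (s := Ioi (S ^ 2))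
  refine continuousOn_const.mul (ContinuousOn.div ?_ ?_ ?_)
  · refine ContinuousOn.mul ?_ ?_
    · exact continuous_sinh.comp_continuousOn hy
    · exact continuous_cosh.comp_continuousOn (continuousOn_const.mul hy)
  · refine ContinuousOn.mul ?_ ?_
    · exact continuous_cosh.comp_continuousOn hy
    · exact continuous_sinh.comp_continuousOn (continuousOn_const.mul hy)
  · intro p hp
    have h2 := yy_pos hC hS h1 (l i) hp
    have h3 : 0 < sinh ((2 * l i + 1) * yy hC hS h1 (l i) p) := sinh_pos_iff.2 (by positivity)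
    have := cosh_pos (yy hC hS h1 (l i) p)
    positivity

theorem cont_ab {C S : ℝ} (hC : 0 < C) (hS : 0 < S) (h1 : C ^ 2 + S ^ 2 = 1) (l : ℕ → ℕ)
    (ε : ℕ → ℝ) (i : ℕ) :
    ContinuousOn (fun p : ℝ => (ab ((1 - p) / p) (ta hC hS h1 l ε p) i).1) (Ioi (S ^ 2)) ∧
    ContinuousOn (fun p : ℝ => (ab ((1 - p) / p) (ta hC hS h1 l ε p) i).2) (Ioi (S ^ 2)) := by
  induction i with
  | zero => exact ⟨continuousOn_const, continuousOn_const⟩
  | succ i ih =>
    have hw : ContinuousOn (fun p : ℝ => (1 - p) / p) (Ioi (S ^ 2)) := by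
      refine ContinuousOn.div (by fun_prop) (by fun_prop) fun p hp => ?_
      exact ((by positivity : (0 : ℝ) ≤ S ^ 2).trans_lt hp).ne'
    have ht := cont_ta hC hS h1 l ε i
    exact ⟨ih.1.add ((ih.2.mul ht).mul hw), ih.2.sub (ih.1.mul ht)⟩

theorem s_CONT : S_CONT := by
  intro C S hC hS h1 k l ε
  exact (cont_ab hC hS h1 l ε k).2

end Pool.Agent.L7h26.Pm
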