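import Pool.Agent.L7h26.Pm.Cont

set_option autoImplicit false

/-!
# Project PM (helper81): LOW
-/

namespace Pool.Agent.L7h26.Pm

open Real Filter Topology Set Pool.Agent.L7h81.Pz Pool.Agent.L7h81.Pm

/-- Polar form of `ab`. -/
theorem ab_polar (s : ℝ) (τ : ℕ → ℝ) (i : ℕ) :
    (ab (s ^ 2) τ i).1 = (∏ j ∈ Finset.range i, √(1 + (τ j * s) ^ 2)) *
      cos (∑ j ∈ Finset.range i, arctan (τ j * s)) ∧
    (ab (s ^ 2) τ i).2 * s = - ((∏ j ∈ Finset.range i, √(1 + (τ j * s) ^ 2)) *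
      sin (∑ j ∈ Finset.range i, arctan (τ j * s))) := by
  induction i with
  | zero => simp [ab]
  | succ i ih =>
    rw [Finset.prod_range_succ, Finset.sum_range_succ]
    set P := ∏ j ∈ Finset.range i, √(1 + (τ j * s) ^ 2) with hP
    set θ := ∑ j ∈ Finset.range i, arctan (τ j * s) with hθ
    have hr : √(1 + (τ i * s) ^ 2) ≠ 0 := by positivity
    rw [cos_add, sin_add, cos_arctan, sin_arctan]
    obtain ⟨e1, e2⟩ := ih
    constructor
    · show (ab (s ^ 2) τ i).1 + (ab (s ^ 2) τ i).2 * τ i * s ^ 2 = _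
      have : (ab (s ^ 2) τ i).2 * τ i * s ^ 2 = ((ab (s ^ 2) τ i).2 * s) * (τ i * s) := by ring
      rw [this, e1, e2]
      field_simp
      try ring
    · show ((ab (s ^ 2) τ i).2 - (ab (s ^ 2) τ i).1 * τ i) * s = _
      have : ((ab (s ^ 2) τ i).2 - (ab (s ^ 2) τ i).1 * τ i) * s =
          (ab (s ^ 2) τ i).2 * s - (ab (s ^ 2) τ i).1 * (τ i * s) := by ring
      rw [this, e1, e2]
      field_simp
      try ring

theorem mul_sinh_le (m : ℕ) {y : ℝ} (hy : 0 ≤ y) : m * sinh y ≤ sinh (m * y) := by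
  induction m with
  | zero => simp
  | succ m ih =>
    push_cast
    rw [add_mul, one_mul, add_mul, one_mul, sinh_add]
    have a1 : 0 ≤ sinh y := sinh_nonneg_iff.2 hy
    have a2 : 0 ≤ sinh (m * y) := sinh_nonneg_iff.2 (by positivity)
    have a3 := one_le_cosh y
    have a4 := one_le_cosh (m * y)
    nlinarith [mul_nonneg a2 (sub_nonneg.2 a3), mul_nonneg a1 (sub_nonneg.2 a4)]

theorem le_tt (l : ℕ) {y : ℝ} (hy : 0 < y) : 1 / (2 * l + 1 : ℝ) ≤ tt l y := by
  unfold tt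
  have a2 : 0 < sinh ((2 * l + 1) * y) := sinh_pos_iff.2 (by positivity)
  have a3 := cosh_pos y
  rw [div_le_div_iff₀ (by positivity) (by positivity)]
  have := sinh_cosh_le (2 * l + 1) hy.le
  push_cast at this
  linarith

theorem tt_le (l : ℕ) {y : ℝ} (hy : 0 < y) :
    tt l y ≤ cosh ((2 * l + 1) * y) * (1 / (2 * l + 1 : ℝ)) := by
  unfold tt
  have a2 : 0 < sinh ((2 * l + 1) * y) := sinh_pos_iff.2 (by positivity)
  have a3 := cosh_pos y
  have a4 := one_le_cosh y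
  have a5 := cosh_pos ((2 * l + 1) * y)
  have a6 : 0 < sinh y := sinh_pos_iff.2 hy
  rw [mul_one_div, div_le_div_iff₀ (by positivity) (by positivity)]
  have h := mul_sinh_le (2 * l + 1) hy.le
  push_cast at h
  have h2 : (2 * l + 1) * sinh y ≤ cosh y * sinh ((2 * l + 1) * y) := by
    nlinarith [mul_nonneg a2.le (sub_nonneg.2 a4)]
  calc sinh y * cosh ((2 * l + 1) * y) * (2 * l + 1)
      = cosh ((2 * l + 1) * y) * ((2 * l + 1) * sinh y) := by ring
    _ ≤ cosh ((2 * l + 1) * y) * (cosh y * sinh ((2 * l + 1) * y)) := by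
        exact mul_le_mul_of_nonneg_left h2 a5.le

theorem yy_zero {C S : ℝ} (hC : 0 < C) (hS : 0 < S) (h1 : C ^ 2 + S ^ 2 = 1) (l : ℕ) :
    yy hC hS h1 l (S ^ 2) = 0 := by
  apply (FE_strictMono hC hS h1 l).injective
  rw [FE_yy]
  unfold FE
  rw [max_self, min_self, FF_zero]
  linarith

/-- `t_j → 1 / (2 l_j + 1)`. -/
theorem tt_tendsto {C S : ℝ} (hC : 0 < C) (hS : 0 < S) (h1 : C ^ 2 + S ^ 2 = 1) (l : ℕ) :
    Tendsto (fun p : ℝ => tt l (yy hC hS h1 l p)) (𝓝[>] (S ^ 2)) (𝓝 (1 / (2 * l + 1 : ℝ))) := by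
  have hy : Tendsto (fun p : ℝ => yy hC hS h1 l p) (𝓝[>] (S ^ 2)) (𝓝 0) := by
    have := (continuous_yy hC hS h1 l).tendsto (S ^ 2)
    rw [yy_zero] at this
    exact this.mono_left nhdsWithin_le_nhds
  have hc : Tendsto (fun p : ℝ => cosh ((2 * l + 1) * yy hC hS h1 l p) * (1 / (2 * l + 1 : ℝ)))
      (𝓝[>] (S ^ 2)) (𝓝 (1 / (2 * l + 1 : ℝ))) := by
    have h2 : Continuous (fun y : ℝ => cosh ((2 * l + 1) * y) * (1 / (2 * l + 1 : ℝ))) := by
      fun_prop
    have h3 := (h2.tendsto 0).comp hy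
    simpa [Function.comp_def] using h3
  refine tendsto_of_tendsto_of_tendsto_of_le_of_le' tendsto_const_nhds hc ?_ ?_
  · filter_upwards [self_mem_nhdsWithin] with p hp
    exact le_tt l (yy_pos hC hS h1 l hp)
  · filter_upwards [self_mem_nhdsWithin] with p hp
    exact tt_le l (yy_pos hC hS h1 l hp)

theorem arctan_sign {e : ℝ} (he : e = 1 ∨ e = -1) (x : ℝ) : arctan (e * x) = e * arctan x := by
  rcases he with rfl | rfl
  · simp
  · rw [neg_one_mul, arctan_neg, neg_one_mul]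

theorem s_LOW : S_LOW := by
  intro C S hC hS h1 k l ε hε hF
  set F := ∑ i ∈ Finset.range k, ε i * arctan (C / S / (2 * l i + 1)) with hFd
  have hS1 : S ^ 2 < 1 := by nlinarith
  set s : ℝ → ℝ := fun p => √(1 - p) / √p with hs
  set Ψ : ℝ → ℝ := fun p => ∑ j ∈ Finset.range k, arctan (ta hC hS h1 l ε p j * s p) with hΨ
  have hsc : ∀ p : ℝ, 0 < p → ContinuousAt s p := by
    intro p hp
    have hne : √p ≠ 0 := by positivity
    exact ContinuousAt.div (by fun_prop) (by fun_prop) hne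
  have hcont : ContinuousOn Ψ (Ioi (S ^ 2)) := by
    refine continuousOn_finsetSum _ fun j _ => ?_
    refine continuous_arctan.comp_continuousOn ((cont_ta hC hS h1 l ε j).mul ?_)
    intro p hp
    exact (hsc p ((by positivity : (0 : ℝ) ≤ S ^ 2).trans_lt hp)).continuousWithinAt
  have hΨ1 : Ψ 1 = 0 := by simp [hΨ, hs]
  have hlim : Tendsto Ψ (𝓝[>] (S ^ 2)) (𝓝 F) := by
    refine tendsto_finsetSum _ fun j _ => ?_
    have e1 : s (S ^ 2) = C / S := by
      simp only [hs]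
      rw [show 1 - S ^ 2 = C ^ 2 by linarith, sqrt_sq hC.le, sqrt_sq hS.le]
    have e2 : Tendsto s (𝓝[>] (S ^ 2)) (𝓝 (C / S)) := by
      rw [← e1]
      exact ((hsc (S ^ 2) (by positivity)).tendsto).mono_left nhdsWithin_le_nhds
    have e3 : Tendsto (fun p => ta hC hS h1 l ε p j) (𝓝[>] (S ^ 2))
        (𝓝 (ε j * (1 / (2 * l j + 1 : ℝ)))) := (tt_tendsto hC hS h1 (l j)).const_mul (ε j)
    have e4 := (continuous_arctan.tendsto _).comp (e3.mul e2)
    have e5 : arctan (ε j * (1 / (2 * l j + 1 : ℝ)) * (C / S)) =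
        ε j * arctan (C / S / (2 * l j + 1)) := by
      rw [← arctan_sign (hε j)]
      congr 1
      ring
    rw [e5] at e4
    exact e4
  -- main intermediate value argument
  have key : ∀ v : ℝ, 0 < v → v < F → ∃ p : ℝ, S ^ 2 < p ∧ p < 1 ∧ Ψ p = v := by
    intro v hv hvF
    have hev : ∀ᶠ p in 𝓝[>] (S ^ 2), v < Ψ p := hlim.eventually (lt_mem_nhds hvF)
    obtain ⟨p0, hp0, hp0'⟩ := (hev.and (Ioo_mem_nhdsGT hS1)).exists
    have hc : ContinuousOn Ψ (Icc p0 1) := hcont.mono fun p hp => hp0'.1.trans_le hp.1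
    obtain ⟨p, hp, hpe⟩ := intermediate_value_Icc' hp0'.2.le hc ⟨by rw [hΨ1]; exact hv.le, hp0.le⟩
    refine ⟨p, hp0'.1.trans_le hp.1, lt_of_le_of_ne hp.2 ?_, hpe⟩
    rintro rfl
    rw [hΨ1] at hpe
    exact hv.ne hpe
  have fin : ∀ p : ℝ, S ^ 2 < p → p < 1 → ∃ s' P : ℝ, 0 < s' ∧ 0 < P ∧
      (ab ((1 - p) / p) (ta hC hS h1 l ε p) k).2 * s' = - (P * sin (Ψ p)) := by
    intro p hp hp1
    have hp0 : 0 < p := (by positivity : (0 : ℝ) ≤ S ^ 2).trans_lt hp
    have hp2 : 0 < 1 - p := by linarith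
    refine ⟨s p, ∏ j ∈ Finset.range k, √(1 + (ta hC hS h1 l ε p j * s p) ^ 2), ?_, ?_, ?_⟩
    · simp only [hs]; positivity
    · exact Finset.prod_pos fun j _ => by positivity
    · have e1 : (1 - p) / p = (s p) ^ 2 := by
        simp only [hs]
        rw [div_pow, sq_sqrt hp2.le, sq_sqrt hp0.le]
      rw [e1]
      exact (ab_polar (s p) (ta hC hS h1 l ε p) k).2
  constructor
  · intro hπ
    obtain ⟨p, hp, hp1, hpe⟩ := key π pi_pos hπ
    refine ⟨p, hp, ?_⟩
    obtain ⟨s', P, hs', hP, h⟩ := fin p hp hp1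
    rw [hpe, sin_pi, mul_zero, neg_zero] at h
    exact (mul_eq_zero.1 h).resolve_right hs'.ne'
  · intro hπ
    obtain ⟨p, hp, hp1, hpe⟩ := key (F / 2) (by linarith) (by linarith)
    refine ⟨p, hp, hp1, ?_⟩
    obtain ⟨s', P, hs', hP, h⟩ := fin p hp hp1
    have hsin : 0 < sin (Ψ p) := by
      rw [hpe]
      exact sin_pos_of_pos_of_lt_pi (by linarith) (by linarith [pi_pos])
    by_contra hcon
    rw [not_lt] at hcon
    have h3 := mul_nonneg hcon hs'.le
    rw [h] at h3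
    nlinarith [mul_pos hP hsin]

end Pool.Agent.L7h26.Pm
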